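import Pool.Agent.K3h16.FG.Stm
import Pool.Agent.H39R2.FujNT

/-!
# Values modulo the sink, linear version
-/

set_option autoImplicit false

namespace Pool.Agent.K3h92.FG

open Pool.Agent.K3h16.FG Pool.Agent.R920.WC

set_option linter.unusedSectionVars false

section

variable {ι : Type} [DecidableEq ι] {B : Type} [CommRing B] [Algebra ℂ B]

/-- the product of the pairs -/
theorem prodz (I : Finset ι) (v : ι → ℂ) (r : ι → Bˣ) (m : ι → ℕ) :
    ∏ x ∈ I, ((v x, (r x : B) * algebraMap ℂ B (v x)) : ℂ × B) ^ m x =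
      (∏ x ∈ I, v x ^ m x,
        ((∏ x ∈ I, r x ^ m x : Bˣ) : B) * algebraMap ℂ B (∏ x ∈ I, v x ^ m x)) := by
  ext
  · rw [Prod.fst_prod]
    rfl
  · rw [Prod.snd_prod]
    simp only [Prod.pow_snd, mul_pow, Finset.prod_mul_distrib, map_prod, map_pow]
    congr 1
    rw [← Units.coeHom_apply, map_prod]
    simp

theorem prod_single_mul (I : Finset ι) {G : Type} [CommGroup G] (r : ι → G) {j : ι} (hj : j ∈ I)
    (t : ℕ) (m : ι → ℕ) :
    ∏ x ∈ I, r x ^ (m x + if x = j then t else 0) = (∏ x ∈ I, r x ^ m x) * r j ^ t := by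
  simp only [pow_add, Finset.prod_mul_distrib]
  congr 1
  rw [Finset.prod_eq_single j]
  · simp
  · intro b _ hb
    simp [hb]
  · intro h
    exact absurd hj h

/-- a relation with the right values gives a linear relation -/
theorem mem_of_value (a ℓ : ι → ℕ) (I : Finset ι) (v : ι → ℂ) (r : ι → Bˣ) (hv : ∀ x ∈ I, v x ≠ 0)
    (ha : ∀ x ∈ I, 1 < a x) {x : ι} (hx : x ∈ I) (hl : 1 ≤ ℓ x) (M : ι → ℕ) (hM0 : M x = 0)
    (hM : dg a I M = ℓ x * a x) (hval : ∏ y ∈ I, r y ^ M y = r x ^ ℓ x) :
    ((v x, (r x : B) * algebraMap ℂ B (v x)) : ℂ × B) ^ ℓ x ∈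
      Submodule.span ℂ {w : ℂ × B | ∃ m, Rel a ℓ I x m ∧
        w = ∏ y ∈ I, ((v y, (r y : B) * algebraMap ℂ B (v y)) : ℂ × B) ^ m y} := by
  have hrel : Rel a ℓ I x M := by
    refine ⟨hM, ?_⟩
    by_contra hcon
    push Not at hcon
    have h0 : dg a I M = 0 := by
      refine Finset.sum_eq_zero fun y hy => ?_
      by_cases hyx : y = x
      · rw [hyx, hM0, zero_mul]
      · rw [hcon y hy hyx, zero_mul]
    rw [h0] at hM
    have h1 := ha x hx
    have h2 : 0 < ℓ x * a x := Nat.mul_pos hl (by omega)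
    omega
  have hVM : ∏ y ∈ I, v y ^ M y ≠ 0 := Finset.prod_ne_zero_iff.2 fun y hy => pow_ne_zero _ (hv y hy)
  have hmem : ∏ y ∈ I, ((v y, (r y : B) * algebraMap ℂ B (v y)) : ℂ × B) ^ M y ∈
      Submodule.span ℂ {w : ℂ × B | ∃ m, Rel a ℓ I x m ∧
        w = ∏ y ∈ I, ((v y, (r y : B) * algebraMap ℂ B (v y)) : ℂ × B) ^ m y} :=
    Submodule.subset_span ⟨M, hrel, rfl⟩
  have h1 := Submodule.smul_mem _ (v x ^ ℓ x / ∏ y ∈ I, v y ^ M y) hmem
  have h2 : (v x ^ ℓ x / ∏ y ∈ I, v y ^ M y) •
      ∏ y ∈ I, ((v y, (r y : B) * algebraMap ℂ B (v y)) : ℂ × B) ^ M y =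
      ((v x, (r x : B) * algebraMap ℂ B (v x)) : ℂ × B) ^ ℓ x := by
    rw [prodz, hval]
    ext
    · simp only [Prod.smul_fst, smul_eq_mul, Prod.pow_fst]
      rw [div_mul_cancel₀ _ hVM]
    · simp only [Prod.smul_snd, Prod.pow_snd, mul_pow]
      rw [Algebra.smul_def]
      have h3 : algebraMap ℂ B (v x ^ ℓ x / ∏ y ∈ I, v y ^ M y) *
          (((r x ^ ℓ x : Bˣ) : B) * algebraMap ℂ B (∏ y ∈ I, v y ^ M y)) =
          ((r x ^ ℓ x : Bˣ) : B) * algebraMap ℂ B ((v x ^ ℓ x / ∏ y ∈ I, v y ^ M y) *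
            ∏ y ∈ I, v y ^ M y) := by
        rw [map_mul]
        ring
      rw [h3, div_mul_cancel₀ _ hVM, map_pow, Units.val_pow_eq_pow_val]
  rwa [h2] at h1

end

/-- (SINK) -/
theorem t_SINK : S_POT → S_REDLIN → S_MIN → S_AXIS → S_SINK := by
  intro hPOT hREDLIN hMIN hAXIS
  intro ι _ B _ _ a c L I v r i k hi hk hik ha hcop hc hL2 hLk hcl hLa hv e hbud hbig hone hrep
    hspan m y hm
  have hap : ∀ x ∈ I, 0 < a x := fun x hx => by have := ha x hx; omega
  obtain ⟨-, hck, -⟩ := (hMIN a I hap).2 c hc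
  obtain ⟨l', hl'⟩ : ∃ l' : ι → ℕ, l' = fun x => if x = k then c k else
      if c x = 1 then 1 else L x := ⟨_, rfl⟩
  have hl'k : l' k = c k := by rw [hl']; simp
  have hl'1 : ∀ x, x ≠ k → c x = 1 → l' x = 1 := fun x hx h => by rw [hl']; simp [hx, h]
  have hl'2 : ∀ x, x ≠ k → c x ≠ 1 → l' x = L x := fun x hx h => by rw [hl']; simp [hx, h]
  have hle : ∀ x ∈ I, l' x ≤ L x := by
    intro x hx
    by_cases hxk : x = k
    · rw [hxk, hl'k, hLk]
      exact hck k hk i hi hik
    · by_cases h1 : c x = 1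
      · rw [hl'1 x hxk h1]
        have := hL2 x hx
        omega
      · rw [hl'2 x hxk h1]
  -- no closed subset
  have hncl : ∀ U ⊆ I \ {i}, ¬ Closed a l' U := by
    intro U hU hcU
    refine hcl U hU ⟨hcU.1, fun x hx => ?_⟩
    obtain ⟨m', hm'1, k', hk'U, hk'x, hk'⟩ := hcU.2 x hx
    have hxI : x ∈ I := (Finset.mem_sdiff.1 (hU hx)).1
    refine ⟨fun z => m' z + if z = x then L x - l' x else 0, ?_, k', hk'U, hk'x, by simp [hk'x, hk']⟩
    have h1 := dg_add_single a U m' hx (L x - l' x)
    rw [show dg a U m' = l' x * a x from hm'1] at h1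
    rw [← Nat.add_mul, Nat.add_sub_cancel' (hle x hxI)] at h1
    exact h1
  obtain ⟨W, hW⟩ := hPOT a l' I {i} (Finset.singleton_subset_iff.2 hi) hncl
  -- the linear relations
  have hlin : ∀ x ∈ I \ {i}, ((v x, (r x : B) * algebraMap ℂ B (v x)) : ℂ × B) ^ l' x ∈
      Submodule.span ℂ {w : ℂ × B | ∃ m, Rel a l' I x m ∧
        w = ∏ y ∈ I, ((v y, (r y : B) * algebraMap ℂ B (v y)) : ℂ × B) ^ m y} := by
    intro x hx
    obtain ⟨hxI, hxi⟩ := Finset.mem_sdiff.1 hx
    rw [Finset.mem_singleton] at hxi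
    by_cases hxk : x = k
    · subst hxk
      obtain ⟨M, hM0, hM⟩ := hc.rel x hxI
      obtain ⟨u, w, huw, hcw⟩ := hrep
      refine mem_of_value a l' I v r hv ha hxI (by rw [hl'k]; exact hc.pos x hxI) M hM0
        (by rw [hl'k]; exact hM) ?_
      rw [hl'k]
      have h1 := hone (fun z => (if z = i then u else 0) + if z = x then w else 0) (by
        rw [dg_add_single a I _ hxI, dg_single a I hi, huw])
      have h2 := hone (fun z => (M z + if z = i then u else 0) + if z = x then w - c x else 0) (by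
        rw [dg_add_single a I _ hxI, dg_add_single a I _ hi, hM, ← huw]
        have h3 : (w - c x) * a x + c x * a x = w * a x := by
          rw [← Nat.add_mul, Nat.sub_add_cancel hcw]
        omega)
      rw [prod_single_mul I r hxI] at h1 h2
      rw [prod_single_mul I r hi] at h2
      have h3 : ∏ z ∈ I, r z ^ (if z = i then u else 0) = r i ^ u := by
        have := prod_single_mul I r hi u (fun _ => 0)
        simpa using this
      rw [h3] at h1
      have h4 : r x ^ w = r x ^ c x * r x ^ (w - c x) := by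
        rw [← pow_add, Nat.add_sub_cancel' hcw]
      rw [h4] at h1
      have h5 : (∏ z ∈ I, r z ^ M z) * (r i ^ u * r x ^ (w - c x)) =
          r x ^ c x * (r i ^ u * r x ^ (w - c x)) := by
        rw [← mul_assoc, h2, ← h1]
        exact (mul_left_comm _ _ _)
      exact mul_right_cancel h5
    · by_cases h1 : c x = 1
      · obtain ⟨M, hM0, hM⟩ := hc.rel x hxI
        have h2 := hbig x hxI hxi hxk
        obtain ⟨u, w, huw⟩ := Pool.Agent.H39R2.Fuj.rep (hcop i hi k hk hik)
          (show (a i - 1) * (a k - 1) ≤ e - a x by omega)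
        rw [hl'1 x hxk h1]
        have h3 := mem_of_value a (fun _ => 1) I v r hv ha hxI le_rfl M hM0 (by rw [hM, h1]) (by
          have h1' := hone (fun z => ((if z = i then u else 0) + if z = k then w else 0) +
              if z = x then 1 else 0) (by
            rw [dg_add_single a I _ hxI, dg_add_single a I _ hk, dg_single a I hi]
            rw [mul_comm u, mul_comm w]
            omega)
          have h2' := hone (fun z => (M z + if z = i then u else 0) + if z = k then w else 0) (by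
            rw [dg_add_single a I _ hk, dg_add_single a I _ hi, hM, h1]
            rw [mul_comm u, mul_comm w]
            omega)
          rw [prod_single_mul I r hxI, prod_single_mul I r hk] at h1'
          rw [prod_single_mul I r hk, prod_single_mul I r hi] at h2'
          have h3 : ∏ z ∈ I, r z ^ (if z = i then u else 0) = r i ^ u := by
            have := prod_single_mul I r hi u (fun _ => 0)
            simpa using this
          rw [h3] at h1'
          have h5 : (∏ z ∈ I, r z ^ M z) * (r i ^ u * r k ^ w) = r x ^ 1 * (r i ^ u * r k ^ w) := by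
            rw [← mul_assoc, h2', ← h1']
            exact mul_comm _ _
          exact mul_right_cancel h5)
        refine Submodule.span_mono ?_ h3
        rintro w' ⟨m', hm', rfl⟩
        refine ⟨m', ?_, rfl⟩
        unfold Pool.Agent.R920.WC.Rel at hm' ⊢
        rw [hl'1 x hxk h1]
        exact hm'
      · rw [hl'2 x hxk h1]
        refine Submodule.span_mono ?_ (hspan x hxI hxi hxk)
        rintro w' ⟨m', hm', rfl⟩
        refine ⟨m', ?_, rfl⟩
        unfold Pool.Agent.R920.WC.Rel at hm' ⊢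
        rw [hl'2 x hxk h1]
        exact hm'
  -- numerics
  have hnum : ∑ x ∈ I.erase i, (l' x - 1) * a x < e + a i := by
    have hkI : k ∈ I.erase i := Finset.mem_erase.2 ⟨hik.symm, hk⟩
    have hax := hAXIS a c I ha hcop hc i hi
    rw [← Finset.add_sum_erase _ _ hkI] at hax ⊢
    rw [hl'k]
    have h1 : ∑ x ∈ (I.erase i).erase k, (l' x - 1) * a x ≤
        ∑ x ∈ (I.erase i).erase k, ((L x - 1) * (a x - 1) + (c x - 1) * a k) := by
      refine Finset.sum_le_sum fun x hx => ?_
      obtain ⟨hxk, hx2⟩ := Finset.mem_erase.1 hx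
      obtain ⟨hxi, hxI⟩ := Finset.mem_erase.1 hx2
      by_cases h1 : c x = 1
      · rw [hl'1 x hxk h1]
        simp
      · rw [hl'2 x hxk h1]
        have h2 := hLa x hxI hxi hxk
        have h3 := hc.pos x hxI
        have h4 : (L x - 1) * a x = (L x - 1) * (a x - 1) + (L x - 1) := by
          have h5 := ha x hxI
          obtain ⟨t, ht⟩ : ∃ t, a x = t + 1 := ⟨a x - 1, by omega⟩
          rw [ht, Nat.add_sub_cancel]
          ring
        rw [h4]
        have h5 : 1 * a k ≤ (c x - 1) * a k := Nat.mul_le_mul_right _ (by omega)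
        omega
    rw [Finset.sum_add_distrib, ← Finset.sum_mul] at h1
    have h2 := ha i hi
    have h3 := ha k hk
    have h4 := hc.pos k hk
    generalize ∑ x ∈ (I.erase i).erase k, (c x - 1) = S at *
    generalize ∑ x ∈ (I.erase i).erase k, (L x - 1) * (a x - 1) = T at *
    obtain ⟨p, hp⟩ : ∃ p, a i = p + 1 := ⟨a i - 1, by omega⟩
    obtain ⟨q, hq⟩ : ∃ q, a k = q + 1 := ⟨a k - 1, by omega⟩
    have h5 : (c k - 1 + S) * a k ≤ p * a k := Nat.mul_le_mul_right _ (by omega)
    rw [hp, hq, Nat.add_sub_cancel, Nat.add_sub_cancel] at hbud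
    rw [Nat.add_mul] at h5
    have h6 : p * a k = p * q + p := by rw [hq]; ring
    rw [hp]
    omega
  -- the reduced configurations
  have hred := hREDLIN (fun x => ((v x, (r x : B) * algebraMap ℂ B (v x)) : ℂ × B)) a l' W I {i}
    hap hW hlin m
  let P : Submodule ℂ (ℂ × B) :=
    { carrier := {w | w.2 = ((r i ^ y : Bˣ) : B) * algebraMap ℂ B w.1}
      add_mem' := by
        intro w w' hw hw'
        simp only [Set.mem_ofPred_eq, Prod.snd_add, Prod.fst_add, map_add] at *
        rw [hw, hw']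
        ring
      zero_mem' := by simp
      smul_mem' := by
        intro t w hw
        simp only [Set.mem_ofPred_eq, Prod.smul_snd, Prod.smul_fst, smul_eq_mul, map_mul] at *
        rw [hw, Algebra.smul_def]
        ring }
  have hP : ∏ x ∈ I, ((v x, (r x : B) * algebraMap ℂ B (v x)) : ℂ × B) ^ m x ∈ P := by
    refine Submodule.span_le.2 ?_ hred
    rintro w ⟨m', hm', hlt, rfl⟩
    have h1 : y ≤ m' i := by
      have h2 := dg_erase a I m' hi
      rw [hm', hm] at h2
      have h3 : dg a (I.erase i) m' ≤ ∑ x ∈ I.erase i, (l' x - 1) * a x := by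
        refine Finset.sum_le_sum fun x hx => Nat.mul_le_mul_right _ ?_
        obtain ⟨hxi, hxI⟩ := Finset.mem_erase.1 hx
        have := hlt x (Finset.mem_sdiff.2 ⟨hxI, by simpa using hxi⟩)
        omega
      by_contra hcon
      push Not at hcon
      have h4 : (m' i + 1) * a i ≤ y * a i := Nat.mul_le_mul_right _ hcon
      rw [Nat.add_mul, Nat.one_mul] at h4
      omega
    have h2 := hone (fun z => if z = i then m' z - y else m' z) (by
      have h3 := dg_sub_single a I m' hi h1
      rw [hm', hm] at h3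
      omega)
    have h3 : ∏ x ∈ I, r x ^ m' x = r i ^ y := by
      have h4 := prod_single_mul I r hi y (fun z => if z = i then m' z - y else m' z)
      rw [h2, one_mul] at h4
      rw [← h4]
      refine Finset.prod_congr rfl fun x _ => ?_
      by_cases hx : x = i
      · subst hx
        simp only [if_true]
        rw [Nat.sub_add_cancel h1]
      · simp [hx]
    show (∏ x ∈ I, ((v x, (r x : B) * algebraMap ℂ B (v x)) : ℂ × B) ^ m' x) ∈ P
    rw [prodz, h3]
    rfl
  rw [prodz] at hP
  have hP2 : ((∏ x ∈ I, r x ^ m x : Bˣ) : B) * algebraMap ℂ B (∏ x ∈ I, v x ^ m x) =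
      ((r i ^ y : Bˣ) : B) * algebraMap ℂ B (∏ x ∈ I, v x ^ m x) := hP
  have hV : ∏ x ∈ I, v x ^ m x ≠ 0 := Finset.prod_ne_zero_iff.2 fun x hx => pow_ne_zero _ (hv x hx)
  have hu : IsUnit (algebraMap ℂ B (∏ x ∈ I, v x ^ m x)) :=
    (IsUnit.mk0 _ hV).map (algebraMap ℂ B)
  exact Units.ext (hu.mul_right_cancel hP2)

end Pool.Agent.K3h92.FG
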